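import Pool.Agent.Y869.CCN.More

/-!
How many nontrivial cross-cuts the power set of an infinite set `X` has, and how their members
look modulo finite sets.

* The members of a nontrivial cross-cut `C` are infinite with infinite complement; two members one
  of which is contained in the other up to finitely many points differ in finitely many points, the
  same number on both sides; and the levels of `C` in the classes modulo finite sets can be shifted
  independently of each other: `shift C c` is a nontrivial cross-cut for every function `c`, integer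
  valued and constant on the classes.
* `P(X)` has exactly `2 ^ (|X| ^ ℵ₀)` nontrivial cross-cuts all of whose members are countable.
* If `X` is countable, `P(X)` has exactly `2 ^ (2 ^ ℵ₀)` nontrivial cross-cuts, and as many that are
  pairwise not isomorphic under permutations of `X`: as many as `P(X)` has families of sets.
-/

set_option autoImplicit false

open Set Cardinal

namespace Pool.Agent.Results.MP_73a625_co.NumberOfCrossCuts

open Pool.Agent.Results.MP_73a625_co.AllInfiniteSets
open Pool.Agent.Y869.CCN

universe u

theorem result (X : Type u) [Infinite X] :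
    (∀ C : Set (Set X), IsCrossCut C → ¬ IsTrivial C →
      (∀ A ∈ C, A.Infinite ∧ Aᶜ.Infinite) ∧
      (∀ A ∈ C, ∀ B ∈ C, (A \ B).Finite → (B \ A).Finite ∧ (A \ B).ncard = (B \ A).ncard) ∧
      (∀ c : Set X → ℤ, (∀ A B, FinDiff A B → c A = c B) →
        IsCrossCut (shift C c) ∧ ¬ IsTrivial (shift C c))) ∧
    #{C : Set (Set X) // IsCrossCut C ∧ ¬ IsTrivial C ∧ ∀ A ∈ C, A.Countable} =
      2 ^ (#X ^ ℵ₀) ∧
    (Countable X →
      #{C : Set (Set X) // IsCrossCut C ∧ ¬ IsTrivial C} = 2 ^ ((2 : Cardinal.{u}) ^ ℵ₀) ∧
      ∃ T : Set (Set (Set X)), #T = 2 ^ ((2 : Cardinal.{u}) ^ ℵ₀) ∧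
        (∀ C ∈ T, IsCrossCut C ∧ ¬ IsTrivial C) ∧ ∀ C ∈ T, ∀ D ∈ T, Iso C D → C = D) := by
  refine ⟨fun C hC hn => ⟨infinite_of_nontrivial hC hn, ?_, ?_⟩, count_countable' X, ?_⟩
  · intro A hA B hB hf
    have h1 := fin_of hC hA hB hf
    have h2 := level_eq hC hA hB h1
    refine ⟨h1.2, ?_⟩
    unfold lv at h2
    omega
  · intro c hc
    exact shift_nontrivial hC hn hc
  · intro hX
    exact ⟨count_all X, count_iso X⟩

end Pool.Agent.Results.MP_73a625_co.NumberOfCrossCuts
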